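import Pool.Agent.helper29.NS.Spec2

/-! # Project ns, module SR: the coefficients are C1 -/

open MeasureTheory Filter Topology Set

namespace NS

theorem SR_px {a : ℝ × ℝ → ℝ} (ha : ContDiff ℝ 2 a) : ContDiff ℝ 1 (px a) := by
  have h1 : ContDiff ℝ 1 (fderiv ℝ a) := ha.fderiv_right (m := 1) (by norm_num)
  exact h1.clm_apply contDiff_const

theorem SR_py {a : ℝ × ℝ → ℝ} (ha : ContDiff ℝ 2 a) : ContDiff ℝ 1 (py a) := by
  have h1 : ContDiff ℝ 1 (fderiv ℝ a) := ha.fderiv_right (m := 1) (by norm_num)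
  exact h1.clm_apply contDiff_const

theorem SR_deriv {f : ℝ → ℝ} (hf : ContDiff ℝ 2 f) : ContDiff ℝ 1 (deriv f) := by
  have h2 : ContDiff ℝ (1 + 1) f := by
    have : (2 : WithTop ℕ∞) = 1 + 1 := by norm_num
    rw [← this]
    exact hf
  exact (contDiff_succ_iff_deriv.1 h2).2.2

theorem SR : SR_stmt := by
  intro f a b m n hf ha hb hm hn
  have hf1 : ContDiff ℝ 1 f := hf.of_le (by norm_num)
  have hsh : ContDiff ℝ 1 (fun z : ℝ × ℝ => (z.1, f z.1 + z.2)) :=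
    contDiff_fst.prodMk ((hf1.comp contDiff_fst).add contDiff_snd)
  have hd : ContDiff ℝ 1 (fun z : ℝ × ℝ => deriv f z.1) := (SR_deriv hf).comp contDiff_fst
  have hax : ContDiff ℝ 1 (fun z : ℝ × ℝ => px a (z.1, f z.1 + z.2)) := (SR_px ha).comp hsh
  have hay : ContDiff ℝ 1 (fun z : ℝ × ℝ => py a (z.1, f z.1 + z.2)) := (SR_py ha).comp hsh
  have hbx : ContDiff ℝ 1 (fun z : ℝ × ℝ => px b (z.1, f z.1 + z.2)) := (SR_px hb).comp hsh
  have hby : ContDiff ℝ 1 (fun z : ℝ × ℝ => py b (z.1, f z.1 + z.2)) := (SR_py hb).comp hsh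
  have hm1 : ContDiff ℝ 1 (fun z : ℝ × ℝ => m (z.1, f z.1 + z.2)) :=
    (hm.of_le (by norm_num : (1 : WithTop ℕ∞) ≤ 2)).comp hsh
  have hn1 : ContDiff ℝ 1 (fun z : ℝ × ℝ => n (z.1, f z.1 + z.2)) :=
    (hn.of_le (by norm_num : (1 : WithTop ℕ∞) ≤ 2)).comp hsh
  refine ⟨?_, ?_, ?_, ?_, ?_⟩
  · exact hay.neg
  · exact hax.add (hd.mul hay)
  · exact (hbx.add (hd.mul hby)).sub (hd.mul (hax.add (hd.mul hay)))
  · exact hn1.sub (hd.mul hm1)
  · exact hm1.neg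

end NS
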