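import Pool.Agent.helper29.NS.SpecC

/-!
# ns:EE, one dimensional energy estimate
-/

namespace NS

open MeasureTheory Filter Topology Set

theorem EE_px {f : ℝ × ℝ → ℝ} (hf : Differentiable ℝ f) (t r : ℝ) :
    HasDerivAt (fun s => f (s, r)) (px f (t, r)) t :=
  (hf (t, r)).hasFDerivAt.comp_hasDerivAt t ((hasDerivAt_id t).prodMk (hasDerivAt_const t r))

theorem EE_py {f : ℝ × ℝ → ℝ} (hf : Differentiable ℝ f) (t r : ℝ) :
    HasDerivAt (fun s => f (t, s)) (py f (t, r)) r :=
  (hf (t, r)).hasFDerivAt.comp_hasDerivAt r ((hasDerivAt_const r t).prodMk (hasDerivAt_id r))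

theorem EE_cpx {f : ℝ × ℝ → ℝ} (hf : ContDiff ℝ 1 f) : Continuous (px f) :=
  (hf.continuous_fderiv one_ne_zero).clm_apply continuous_const

theorem EE_cpy {f : ℝ × ℝ → ℝ} (hf : ContDiff ℝ 1 f) : Continuous (py f) :=
  (hf.continuous_fderiv one_ne_zero).clm_apply continuous_const

theorem EE_py1 {f : ℝ × ℝ → ℝ} (hf : ContDiff ℝ 2 f) : ContDiff ℝ 1 (py f) :=
  (hf.fderiv_right (m := 1) (by norm_num)).clm_apply contDiff_const

/-- differentiation under the integral sign -/
theorem EE_deriv {F F' : ℝ × ℝ → ℝ} (hF : Continuous F) (hF' : Continuous F')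
    (hd : ∀ t r, HasDerivAt (fun s => F (s, r)) (F' (t, r)) t) (a b t : ℝ) :
    HasDerivAt (fun t => ∫ r in a..b, F (t, r)) (∫ r in a..b, F' (t, r)) t := by
  have hcomp : IsCompact (Icc (t - 1) (t + 1) ×ˢ uIcc a b) := isCompact_Icc.prod isCompact_uIcc
  obtain ⟨C, hC⟩ := hcomp.exists_bound_of_continuousOn hF'.continuousOn
  refine (intervalIntegral.hasDerivAt_integral_of_dominated_loc_of_deriv_le
    (F := fun t r => F (t, r)) (F' := fun t r => F' (t, r)) (bound := fun _ => C)
    (s := Metric.ball t 1) (Metric.ball_mem_nhds t one_pos) ?_ ?_ ?_ ?_ ?_ ?_).2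
  · exact Eventually.of_forall fun x =>
      (hF.comp (Continuous.prodMk_right x)).aestronglyMeasurable
  · exact (hF.comp (Continuous.prodMk_right t)).intervalIntegrable _ _
  · exact (hF'.comp (Continuous.prodMk_right t)).aestronglyMeasurable
  · refine Eventually.of_forall fun r hr x hx => hC _ ⟨?_, uIoc_subset_uIcc hr⟩
    rw [Metric.mem_ball, Real.dist_eq, abs_lt] at hx
    exact ⟨by linarith [hx.1], by linarith [hx.2]⟩
  · exact intervalIntegrable_const
  · exact Eventually.of_forall fun r _ x _ => hd x r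

/-- the differential inequality -/
theorem EE_ineq {ν ρ R t1 η : ℝ} {V : ℝ × ℝ → ℝ} (hν : 0 < ν) (hρ : 0 < ρ) (hR : ρ < R)
    (hV : ContDiff ℝ 2 V)
    (heq : ∀ t < t1, ∀ r, ρ < r → r < R →
      px V (t, r) = ν * (py (py V) (t, r) + py V (t, r) / r - V (t, r) / r ^ 2))
    (h0 : ∀ t < t1, V (t, R) = 0) (hη : ∀ t < t1, -(V (t, ρ) * py V (t, ρ)) ≤ η)
    (t : ℝ) (ht : t < t1) :
    ∫ r in ρ..R, 2 * V (t, r) * px V (t, r) * r ≤
      2 * ν * ρ * η - 2 * ν / R ^ 2 * ∫ r in ρ..R, V (t, r) ^ 2 * r := by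
  have hV1 : ContDiff ℝ 1 V := hV.of_le (by norm_num)
  have hVd : Differentiable ℝ V := hV1.differentiable one_ne_zero
  have hpd : Differentiable ℝ (py V) := (EE_py1 hV).differentiable one_ne_zero
  have hR0 : 0 < R := hρ.trans hR
  have cV : Continuous fun r : ℝ => V (t, r) := hV1.continuous.comp (Continuous.prodMk_right t)
  have cp : Continuous fun r : ℝ => py V (t, r) := (EE_cpy hV1).comp (Continuous.prodMk_right t)
  have cpp : Continuous fun r : ℝ => py (py V) (t, r) :=
    (EE_cpy (EE_py1 hV)).comp (Continuous.prodMk_right t)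
  have cinv : ContinuousOn (fun r : ℝ => V (t, r) ^ 2 / r) (uIcc ρ R) := by
    refine ContinuousOn.div (cV.pow 2).continuousOn continuousOn_id fun r hr => ?_
    rw [uIcc_of_le hR.le] at hr
    exact (hρ.trans_le hr.1).ne'
  -- the equation
  have e1 : ∫ r in ρ..R, 2 * V (t, r) * px V (t, r) * r =
      ∫ r in ρ..R, (2 * ν) * ((V (t, r) * py V (t, r) + r * py V (t, r) ^ 2 +
        r * V (t, r) * py (py V) (t, r)) - (r * py V (t, r) ^ 2 + V (t, r) ^ 2 / r)) := by
    refine intervalIntegral.integral_congr_ae ?_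
    have hne : ∀ᵐ r : ℝ, r ≠ R := by
      rw [ae_iff]
      simp
    filter_upwards [hne] with r hr hr'
    rw [uIoc_of_le hR.le] at hr'
    have hr0 : r ≠ 0 := (hρ.trans hr'.1).ne'
    rw [heq t ht r hr'.1 (lt_of_le_of_ne hr'.2 hr)]
    field_simp
    ring
  -- the boundary terms
  have e2 : ∫ r in ρ..R, (V (t, r) * py V (t, r) + r * py V (t, r) ^ 2 +
        r * V (t, r) * py (py V) (t, r)) =
      R * V (t, R) * py V (t, R) - ρ * V (t, ρ) * py V (t, ρ) := by
    refine intervalIntegral.integral_eq_sub_of_hasDerivAt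
      (f := fun r => r * V (t, r) * py V (t, r)) (fun r _ => ?_) ?_
    · have h1 := ((hasDerivAt_id r).mul (EE_py hVd t r)).mul (EE_py hpd t r)
      refine HasDerivAt.congr_deriv h1 ?_
      simp only [id_eq, Pi.mul_apply]
      ring
    · exact (by fun_prop : Continuous fun r : ℝ => V (t, r) * py V (t, r) + r * py V (t, r) ^ 2 +
        r * V (t, r) * py (py V) (t, r)).intervalIntegrable _ _
  have i1 : IntervalIntegrable (fun r => V (t, r) * py V (t, r) + r * py V (t, r) ^ 2 +
      r * V (t, r) * py (py V) (t, r)) volume ρ R :=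
    (by fun_prop : Continuous fun r : ℝ => V (t, r) * py V (t, r) + r * py V (t, r) ^ 2 +
        r * V (t, r) * py (py V) (t, r)).intervalIntegrable _ _
  have i2 : IntervalIntegrable (fun r => r * py V (t, r) ^ 2 + V (t, r) ^ 2 / r) volume ρ R :=
    ContinuousOn.intervalIntegrable
      ((by fun_prop : Continuous fun r : ℝ => r * py V (t, r) ^ 2).continuousOn.add cinv)
  have i3 : IntervalIntegrable (fun r => 1 / R ^ 2 * (V (t, r) ^ 2 * r)) volume ρ R :=
    (by fun_prop : Continuous fun r : ℝ => 1 / R ^ 2 * (V (t, r) ^ 2 * r)).intervalIntegrable _ _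
  have e3 : 1 / R ^ 2 * ∫ r in ρ..R, V (t, r) ^ 2 * r ≤
      ∫ r in ρ..R, (r * py V (t, r) ^ 2 + V (t, r) ^ 2 / r) := by
    rw [← intervalIntegral.integral_const_mul]
    refine intervalIntegral.integral_mono_on hR.le i3 i2 fun r hr => ?_
    have hr0 : 0 < r := hρ.trans_le hr.1
    have h1 : 1 / R ^ 2 * (V (t, r) ^ 2 * r) ≤ V (t, r) ^ 2 / r := by
      rw [le_div_iff₀ hr0]
      have h2 : r ^ 2 / R ^ 2 ≤ 1 := by
        rw [div_le_one (by positivity)]
        exact pow_le_pow_left₀ hr0.le hr.2 2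
      calc 1 / R ^ 2 * (V (t, r) ^ 2 * r) * r = V (t, r) ^ 2 * (r ^ 2 / R ^ 2) := by ring
        _ ≤ V (t, r) ^ 2 * 1 := by gcongr
        _ = V (t, r) ^ 2 := mul_one _
    have h3 : 0 ≤ r * py V (t, r) ^ 2 := by positivity
    linarith
  rw [e1, intervalIntegral.integral_const_mul, intervalIntegral.integral_sub i1 i2, e2, h0 t ht]
  have h4 : -(ρ * V (t, ρ) * py V (t, ρ)) ≤ ρ * η := by
    have := mul_le_mul_of_nonneg_left (hη t ht) hρ.le
    linarith
  have h5 : R * 0 * py V (t, R) - ρ * V (t, ρ) * py V (t, ρ) -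
      ∫ r in ρ..R, (r * py V (t, r) ^ 2 + V (t, r) ^ 2 / r) ≤
      ρ * η - 1 / R ^ 2 * ∫ r in ρ..R, V (t, r) ^ 2 * r := by linarith
  have h6 := mul_le_mul_of_nonneg_left h5 (by positivity : 0 ≤ 2 * ν)
  refine h6.trans (le_of_eq ?_)
  ring

theorem EE : EE_stmt := by
  intro ν ρ R t1 η K V hν hρ hR hη0 hV hK heq h0 hη t ht
  have hV1 : ContDiff ℝ 1 V := hV.of_le (by norm_num)
  have hVd : Differentiable ℝ V := hV1.differentiable one_ne_zero
  have hR0 : 0 < R := hρ.trans hR
  set E : ℝ → ℝ := fun t => ∫ r in ρ..R, V (t, r) ^ 2 * r with hE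
  have hder : ∀ s, HasDerivAt E (∫ r in ρ..R, 2 * V (s, r) * px V (s, r) * r) s := by
    intro s
    refine EE_deriv (F := fun z => V z ^ 2 * z.2) (F' := fun z => 2 * V z * px V z * z.2)
      ?_ ?_ ?_ ρ R s
    · exact (hV1.continuous.pow 2).mul continuous_snd
    · exact ((continuous_const.mul hV1.continuous).mul (EE_cpx hV1)).mul continuous_snd
    · intro t r
      have h1 := ((EE_px hVd t r).pow 2).mul_const r
      refine HasDerivAt.congr_deriv h1 ?_
      ring
  set c : ℝ := 2 * ν / R ^ 2 with hc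
  have hc0 : 0 < c := by positivity
  set G : ℝ → ℝ := fun s => (E s - R ^ 2 * ρ * η) * Real.exp (c * s) with hG
  have hGder : ∀ s, HasDerivAt G ((∫ r in ρ..R, 2 * V (s, r) * px V (s, r) * r) * Real.exp (c * s) +
      (E s - R ^ 2 * ρ * η) * (Real.exp (c * s) * c)) s := by
    intro s
    have h1 := (hder s).sub_const (R ^ 2 * ρ * η)
    have h2 : HasDerivAt (fun s => Real.exp (c * s)) (Real.exp (c * s) * c) s := by
      have := ((hasDerivAt_id s).const_mul c).exp
      simpa using this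
    exact h1.mul h2
  have hanti : AntitoneOn G (Iio t1) := by
    refine antitoneOn_of_deriv_nonpos (convex_Iio t1) ?_ ?_ ?_
    · exact fun s _ => (hGder s).continuousAt.continuousWithinAt
    · exact fun s _ => (hGder s).differentiableAt.differentiableWithinAt
    · intro s hs
      rw [interior_Iio] at hs
      rw [(hGder s).deriv]
      have h1 := EE_ineq hν hρ hR hV heq h0 hη s hs
      have h2 : (∫ r in ρ..R, 2 * V (s, r) * px V (s, r) * r) * Real.exp (c * s) +
          (E s - R ^ 2 * ρ * η) * (Real.exp (c * s) * c) =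
          ((∫ r in ρ..R, 2 * V (s, r) * px V (s, r) * r) - (2 * ν * ρ * η - c * E s)) *
            Real.exp (c * s) := by
        rw [hc]
        field_simp
        ring
      rw [h2]
      refine mul_nonpos_of_nonpos_of_nonneg ?_ (Real.exp_pos _).le
      have h3 : (∫ r in ρ..R, 2 * V (s, r) * px V (s, r) * r) ≤ 2 * ν * ρ * η - c * E s := h1
      linarith
  -- bound as `t → -∞`
  have hbd : ∀ s, E s ≤ K ^ 2 * R * (R - ρ) := by
    intro s
    have h1 : E s ≤ ∫ r in ρ..R, K ^ 2 * R := by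
      refine intervalIntegral.integral_mono_on hR.le ?_ intervalIntegrable_const fun r hr => ?_
      · exact ((hV1.continuous.comp (Continuous.prodMk_right s)).pow 2 |>.mul
          continuous_id).intervalIntegrable _ _
      · have h2 := hK (s, r)
        have h3 : V (s, r) ^ 2 ≤ K ^ 2 := by
          rw [← sq_abs (V (s, r))]
          exact pow_le_pow_left₀ (abs_nonneg _) h2 2
        have hr0 : 0 < r := hρ.trans_le hr.1
        exact mul_le_mul h3 hr.2 hr0.le (by positivity)
    rw [intervalIntegral.integral_const, smul_eq_mul] at h1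
    linarith
  have hlim : Tendsto (fun s => (K ^ 2 * R * (R - ρ)) * Real.exp (c * s)) atBot (𝓝 0) := by
    have h1 : Tendsto (fun s => Real.exp (c * s)) atBot (𝓝 0) :=
      Real.tendsto_exp_atBot.comp (tendsto_id.const_mul_atBot hc0)
    simpa using h1.const_mul (K ^ 2 * R * (R - ρ))
  have hGt : G t ≤ 0 := by
    refine ge_of_tendsto hlim ?_
    filter_upwards [eventually_le_atBot t] with s hs
    refine (hanti (lt_of_le_of_lt hs ht) ht hs).trans ?_
    show (E s - R ^ 2 * ρ * η) * Real.exp (c * s) ≤ _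
    refine mul_le_mul_of_nonneg_right ?_ (Real.exp_pos _).le
    have h1 := hbd s
    have h2 : 0 ≤ R ^ 2 * ρ * η := by positivity
    linarith
  have h1 : (E t - R ^ 2 * ρ * η) * Real.exp (c * t) ≤ 0 := hGt
  have h2 : E t - R ^ 2 * ρ * η ≤ 0 := by
    by_contra hcon
    push Not at hcon
    have := mul_pos hcon (Real.exp_pos (c * t))
    linarith
  show E t ≤ _
  linarith

end NS
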