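import Pool.Agent.helper29.NS.SpecD
import Pool.Agent.helper63.NS.KT
import Pool.Agent.helper46.NS.NC

/-!
# Project ns, module LC: zero Cauchy data of the infinitesimal rotation on an arc
-/

namespace NS

open MeasureTheory Filter Topology Set

theorem LC_open (c : ℝ × ℝ) (δ : ℝ) : IsOpen (Dsc c δ) := by
  unfold Dsc
  exact isOpen_lt (by fun_prop) (by fun_prop)

/-- tangential derivative along the arc -/
theorem LC_rot {E : Type*} [NormedAddCommGroup E] [NormedSpace ℝ E] {G : ℝ × ℝ × ℝ → E}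
    {R t δ : ℝ} {q q1 : ℝ × ℝ} (hq : q ∈ Circ R ∩ Dsc q1 δ) (hG : DifferentiableAt ℝ G (t, q))
    (h0 : ∀ q ∈ Circ R ∩ Dsc q1 δ, G (t, q) = 0) : fderiv ℝ G (t, q) (0, -q.2, q.1) = 0 := by
  set γ : ℝ → ℝ × ℝ × ℝ := fun s => (t, Real.cos s * q.1 - Real.sin s * q.2,
    Real.sin s * q.1 + Real.cos s * q.2) with hγdef
  have hγ : HasDerivAt γ (0, -q.2, q.1) 0 := by
    have h1 : HasDerivAt (fun _ : ℝ => t) 0 0 := hasDerivAt_const 0 t
    have hc : HasDerivAt Real.cos 0 0 := by simpa using Real.hasDerivAt_cos 0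
    have hs : HasDerivAt Real.sin 1 0 := by simpa using Real.hasDerivAt_sin 0
    have h2 : HasDerivAt (fun s : ℝ => Real.cos s * q.1 - Real.sin s * q.2) (-q.2) 0 := by
      have := (hc.mul_const q.1).fun_sub (hs.mul_const q.2)
      simpa using this
    have h3 : HasDerivAt (fun s : ℝ => Real.sin s * q.1 + Real.cos s * q.2) q.1 0 := by
      have := (hs.mul_const q.1).fun_add (hc.mul_const q.2)
      simpa using this
    exact h1.prodMk (h2.prodMk h3)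
  have hγ0 : γ 0 = (t, q) := by
    rw [hγdef]
    simp
  have hG' : HasFDerivAt G (fderiv ℝ G (t, q)) (γ 0) := by
    rw [hγ0]
    exact hG.hasFDerivAt
  have h3 : HasDerivAt (fun s : ℝ => G (γ s)) (fderiv ℝ G (t, q) (0, -q.2, q.1)) 0 :=
    HasFDerivAt.comp_hasDerivAt (f := γ) 0 hG' hγ
  have hin : ∀ᶠ s in 𝓝 (0 : ℝ), (γ s).2 ∈ Dsc q1 δ := by
    have hc : ContinuousAt (fun s => (γ s).2) 0 := hγ.continuousAt.snd
    refine hc.eventually ((LC_open q1 δ).mem_nhds ?_)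
    show (γ 0).2 ∈ Dsc q1 δ
    rw [hγ0]
    exact hq.2
  have h4 : (fun s : ℝ => G (γ s)) =ᶠ[𝓝 0] fun _ => 0 := by
    filter_upwards [hin] with s hs
    refine h0 _ ⟨?_, hs⟩
    have hq' : q.1 ^ 2 + q.2 ^ 2 = R ^ 2 := hq.1
    show (Real.cos s * q.1 - Real.sin s * q.2) ^ 2 + (Real.sin s * q.1 + Real.cos s * q.2) ^ 2
      = R ^ 2
    rw [← hq']
    have := Real.sin_sq_add_cos_sq s
    linear_combination (q.1 ^ 2 + q.2 ^ 2) * this
  exact h3.unique ((hasDerivAt_const 0 (0 : E)).congr_of_eventuallyEq h4)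

/-- KT on an arc -/
theorem LC_KT (R α β δ : ℝ) (q1 : ℝ × ℝ) (F : ℝ × ℝ × ℝ → ℝ) (hR : 0 < R) (hF : ContDiff ℝ 2 F)
    (hyp : ∀ t ∈ Ioo α β, ∀ q ∈ Circ R ∩ Dsc q1 δ, F (t, q) = 0 ∧ dx F (t, q) = 0 ∧
      dy F (t, q) = 0 ∧ lap F (t, q) = 0) :
    ∀ t ∈ Ioo α β, ∀ q ∈ Circ R ∩ Dsc q1 δ, F (t, q) = 0 ∧ fderiv ℝ F (t, q) = 0 ∧
      fderiv ℝ (fderiv ℝ F) (t, q) = 0 := by
  have hF1 : Differentiable ℝ F := hF.differentiable (by norm_num)
  have hG1 : Differentiable ℝ (fderiv ℝ F) :=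
    (hF.fderiv_right (m := 1) (by norm_num)).differentiable (by norm_num)
  have key1 : ∀ t ∈ Ioo α β, ∀ q ∈ Circ R ∩ Dsc q1 δ, fderiv ℝ F (t, q) = 0 := by
    intro t ht q hq
    obtain ⟨h1, h2, h3, h4⟩ := hyp t ht q hq
    refine KT_ext _ ?_ h2 h3
    exact KT_time ht (hF1 _) fun t ht => (hyp t ht q hq).1
  intro t ht q hq
  obtain ⟨h1, h2, h3, h4⟩ := hyp t ht q hq
  refine ⟨h1, key1 t ht q hq, ?_⟩
  set B := fderiv ℝ (fderiv ℝ F) (t, q) with hB
  have b1 : B (1, 0, 0) = 0 := KT_time ht (hG1 _) fun t ht => key1 t ht q hq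
  have b2 : B (0, -q.2, q.1) = 0 := LC_rot hq (hG1 _) fun q hq => key1 t ht q hq
  have hs : IsSymmSndFDerivAt ℝ F (t, q) := hF.contDiffAt.isSymmSndFDerivAt (by simp)
  have hsym : ∀ u v, B u v = B v u := fun u v => hs u v
  have hdir : ∀ u v : ℝ × ℝ × ℝ, fderiv ℝ (fun y => fderiv ℝ F y u) (t, q) v = B v u := by
    intro u v
    have h5 := (hG1 (t, q)).hasFDerivAt.clm_apply (hasFDerivAt_const u (t, q))
    rw [h5.fderiv, ContinuousLinearMap.comp_zero, zero_add]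
    rfl
  have e1 : ((0, -q.2, q.1) : ℝ × ℝ × ℝ) = (-q.2) • (0, 1, 0) + q.1 • (0, 0, 1) := by simp
  rw [e1, map_add, map_smul, map_smul] at b2
  have hlap : B (0, 1, 0) (0, 1, 0) + B (0, 0, 1) (0, 0, 1) = 0 := by
    have h5 : lap F (t, q) = fderiv ℝ (fun y => fderiv ℝ F y (0, 1, 0)) (t, q) (0, 1, 0) +
        fderiv ℝ (fun y => fderiv ℝ F y (0, 0, 1)) (t, q) (0, 0, 1) := rfl
    rw [h4, hdir, hdir] at h5
    exact h5.symm
  have c1 : -q.2 * B (0, 1, 0) (0, 1, 0) + q.1 * B (0, 0, 1) (0, 1, 0) = 0 := by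
    have := congrArg (fun f : ℝ × ℝ × ℝ →L[ℝ] ℝ => f (0, 1, 0)) b2
    simpa using this
  have c2 : -q.2 * B (0, 1, 0) (0, 0, 1) + q.1 * B (0, 0, 1) (0, 0, 1) = 0 := by
    have := congrArg (fun f : ℝ × ℝ × ℝ →L[ℝ] ℝ => f (0, 0, 1)) b2
    simpa using this
  have c3 := hsym (0, 1, 0) (0, 0, 1)
  have hq' : q.1 ^ 2 + q.2 ^ 2 = R ^ 2 := hq.1
  have hR2 : 0 < R ^ 2 := by positivity
  set a := B (0, 1, 0) (0, 1, 0) with ha
  set d := B (0, 0, 1) (0, 0, 1) with hd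
  set c := B (0, 0, 1) (0, 1, 0) with hc
  rw [c3] at c2
  have ha0 : a = 0 := by
    have h6 : R ^ 2 * a = 0 := by
      rw [← hq']
      linear_combination (-q.2) * c1 + (-q.1) * c2 + q.1 ^ 2 * hlap
    rcases mul_eq_zero.1 h6 with h7 | h7
    · exact absurd h7 hR2.ne'
    · exact h7
  have hd0 : d = 0 := by linarith
  have hc0 : c = 0 := by
    rw [ha0] at c1
    rw [hd0] at c2
    have h6 : R ^ 2 * c = 0 := by
      rw [← hq']
      linear_combination q.1 * c1 - q.2 * c2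
    rcases mul_eq_zero.1 h6 with h7 | h7
    · exact absurd h7 hR2.ne'
    · exact h7
  refine KT_ext _ b1 ?_ ?_
  · refine KT_ext _ ?_ ha0 ?_
    · rw [hsym, b1]; rfl
    · rw [c3]; exact hc0
  · refine KT_ext _ ?_ hc0 hd0
    rw [hsym, b1]; rfl

/-- the arc consists of boundary points -/
theorem LC_front {Ω : Set (ℝ × ℝ)} {R δ : ℝ} {q1 : ℝ × ℝ} (hΩ : IsOpen Ω) (hR : 0 < R)
    (hin : ∀ p ∈ Dsc q1 δ, (p ∈ Ω ↔ p.1 ^ 2 + p.2 ^ 2 < R ^ 2)) :
    ∀ q ∈ Circ R ∩ Dsc q1 δ, q ∈ frontier Ω := by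
  intro q hq
  have hq' : q.1 ^ 2 + q.2 ^ 2 = R ^ 2 := hq.1
  have hnot : q ∉ Ω := by
    intro h
    have := (hin q hq.2).1 h
    linarith
  refine ⟨?_, by rwa [hΩ.interior_eq]⟩
  -- the points `(1 - s) q`
  have hc : ContinuousAt (fun s : ℝ => (((1 - s) * q.1, (1 - s) * q.2) : ℝ × ℝ)) 0 := by
    fun_prop
  have h0 : (((1 - (0 : ℝ)) * q.1, (1 - (0 : ℝ)) * q.2) : ℝ × ℝ) = q := by simp
  have ht : Tendsto (fun s : ℝ => (((1 - s) * q.1, (1 - s) * q.2) : ℝ × ℝ)) (𝓝[>] 0) (𝓝 q) := by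
    have := hc.tendsto
    rw [h0] at this
    exact this.mono_left nhdsWithin_le_nhds
  refine mem_closure_of_tendsto ht ?_
  have e1 : ∀ᶠ s in 𝓝[>] (0 : ℝ), (((1 - s) * q.1, (1 - s) * q.2) : ℝ × ℝ) ∈ Dsc q1 δ :=
    ht.eventually ((LC_open q1 δ).mem_nhds hq.2)
  have e2 : ∀ᶠ s in 𝓝[>] (0 : ℝ), s < 1 :=
    nhdsWithin_le_nhds (isOpen_Iio.mem_nhds (by norm_num : (0 : ℝ) < 1))
  filter_upwards [e1, e2, self_mem_nhdsWithin] with s h1 h2 h3
  have h3' : 0 < s := h3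
  refine (hin _ h1).2 ?_
  show ((1 - s) * q.1) ^ 2 + ((1 - s) * q.2) ^ 2 < R ^ 2
  have e : ((1 - s) * q.1) ^ 2 + ((1 - s) * q.2) ^ 2 = (1 - s) ^ 2 * R ^ 2 := by
    rw [← hq']; ring
  rw [e]
  have hR2 : 0 < R ^ 2 := by positivity
  have : (1 - s) ^ 2 < 1 := by nlinarith
  nlinarith

section calculus

variable {f g : ℝ × ℝ × ℝ → ℝ}

theorem LC_mx (hf : Differentiable ℝ f) (z : ℝ × ℝ × ℝ) (v : ℝ × ℝ × ℝ) :
    fderiv ℝ (fun z : ℝ × ℝ × ℝ => z.2.1 * f z) z v = v.2.1 * f z + z.2.1 * fderiv ℝ f z v := by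
  have h1 : HasFDerivAt (fun z : ℝ × ℝ × ℝ => z.2.1)
      ((ContinuousLinearMap.fst ℝ ℝ ℝ).comp (ContinuousLinearMap.snd ℝ ℝ (ℝ × ℝ))) z :=
    ((ContinuousLinearMap.fst ℝ ℝ ℝ).comp (ContinuousLinearMap.snd ℝ ℝ (ℝ × ℝ))).hasFDerivAt
  have h2 := h1.fun_mul (hf z).hasFDerivAt
  rw [h2.fderiv]
  simp
  ring

theorem LC_my (hf : Differentiable ℝ f) (z : ℝ × ℝ × ℝ) (v : ℝ × ℝ × ℝ) :
    fderiv ℝ (fun z : ℝ × ℝ × ℝ => z.2.2 * f z) z v = v.2.2 * f z + z.2.2 * fderiv ℝ f z v := by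
  have h1 : HasFDerivAt (fun z : ℝ × ℝ × ℝ => z.2.2)
      ((ContinuousLinearMap.snd ℝ ℝ ℝ).comp (ContinuousLinearMap.snd ℝ ℝ (ℝ × ℝ))) z :=
    ((ContinuousLinearMap.snd ℝ ℝ ℝ).comp (ContinuousLinearMap.snd ℝ ℝ (ℝ × ℝ))).hasFDerivAt
  have h2 := h1.fun_mul (hf z).hasFDerivAt
  rw [h2.fderiv]
  simp
  ring

theorem LC_sub (hf : Differentiable ℝ f) (hg : Differentiable ℝ g) (z v : ℝ × ℝ × ℝ) :
    fderiv ℝ (fun z => f z - g z) z v = fderiv ℝ f z v - fderiv ℝ g z v := by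
  rw [fderiv_fun_sub (hf z) (hg z)]
  rfl

theorem LC_add (hf : Differentiable ℝ f) (hg : Differentiable ℝ g) (z v : ℝ × ℝ × ℝ) :
    fderiv ℝ (fun z => f z + g z) z v = fderiv ℝ f z v + fderiv ℝ g z v := by
  rw [fderiv_fun_add (hf z) (hg z)]
  rfl

theorem LC_dmx (hf : Differentiable ℝ f) : Differentiable ℝ (fun z : ℝ × ℝ × ℝ => z.2.1 * f z) := by
  fun_prop

theorem LC_dmy (hf : Differentiable ℝ f) : Differentiable ℝ (fun z : ℝ × ℝ × ℝ => z.2.2 * f z) := by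
  fun_prop

theorem LC_ds (hf : Differentiable ℝ f) (hg : Differentiable ℝ g) :
    Differentiable ℝ (fun z => f z - g z) := hf.sub hg

theorem LC_da (hf : Differentiable ℝ f) (hg : Differentiable ℝ g) :
    Differentiable ℝ (fun z => f z + g z) := hf.add hg

theorem LC_dc (hf : Differentiable ℝ f) (c : ℝ) : Differentiable ℝ (fun z => c * f z) :=
  hf.const_mul c

theorem LC_cm (hf : Differentiable ℝ f) (c : ℝ) (z v : ℝ × ℝ × ℝ) :
    fderiv ℝ (fun z => c * f z) z v = c * fderiv ℝ f z v := by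
  have h := (hf z).hasFDerivAt.const_mul c
  rw [h.fderiv]
  rfl

/-- the tangential direction -/
theorem LC_dir (f : ℝ × ℝ × ℝ → ℝ) (z : ℝ × ℝ × ℝ) (x y : ℝ) :
    fderiv ℝ f z (0, -y, x) = -y * dx f z + x * dy f z := by
  have e1 : ((0, -y, x) : ℝ × ℝ × ℝ) = (-y) • (0, 1, 0) + x • (0, 0, 1) := by simp
  rw [e1, map_add, map_smul, map_smul, smul_eq_mul, smul_eq_mul]
  rfl

/-- first derivatives of `y ∂ₓ f - x ∂_y f` -/
theorem LC_d1 (hf : ContDiff ℝ 2 f) (z : ℝ × ℝ × ℝ) :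
    dx (fun z : ℝ × ℝ × ℝ => z.2.2 * dx f z - z.2.1 * dy f z) z
      = z.2.2 * dx (dx f) z - z.2.1 * dx (dy f) z - dy f z ∧
    dy (fun z : ℝ × ℝ × ℝ => z.2.2 * dx f z - z.2.1 * dy f z) z
      = dx f z + (z.2.2 * dy (dx f) z - z.2.1 * dy (dy f) z) := by
  obtain ⟨-, h1, h2⟩ := NCa_cd 1 f (by exact_mod_cast hf)
  have d1 : Differentiable ℝ (dx f) := h1.differentiable (by norm_num)
  have d2 : Differentiable ℝ (dy f) := h2.differentiable (by norm_num)
  constructor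
  · show fderiv ℝ _ z (0, 1, 0) = _
    rw [LC_sub (LC_dmy d1) (LC_dmx d2), LC_my d1, LC_mx d2]
    show 0 * dx f z + z.2.2 * dx (dx f) z - (1 * dy f z + z.2.1 * dx (dy f) z) = _
    ring
  · show fderiv ℝ _ z (0, 0, 1) = _
    rw [LC_sub (LC_dmy d1) (LC_dmx d2), LC_my d1, LC_mx d2]
    show 1 * dx f z + z.2.2 * dy (dx f) z - (0 * dy f z + z.2.1 * dy (dy f) z) = _
    ring

theorem LC_lap_sub (hf : ContDiff ℝ 2 f) (hg : ContDiff ℝ 2 g) (z : ℝ × ℝ × ℝ) :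
    lap (fun z => f z - g z) z = lap f z - lap g z := by
  obtain ⟨-, h1, h2⟩ := NCa_cd 1 f (by exact_mod_cast hf)
  obtain ⟨-, h3, h4⟩ := NCa_cd 1 g (by exact_mod_cast hg)
  have d1 : Differentiable ℝ (dx f) := h1.differentiable (by norm_num)
  have d2 : Differentiable ℝ (dy f) := h2.differentiable (by norm_num)
  have d3 : Differentiable ℝ (dx g) := h3.differentiable (by norm_num)
  have d4 : Differentiable ℝ (dy g) := h4.differentiable (by norm_num)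
  have df : Differentiable ℝ f := hf.differentiable (by norm_num)
  have dg : Differentiable ℝ g := hg.differentiable (by norm_num)
  have e1 : dx (fun z => f z - g z) = fun z => dx f z - dx g z := funext fun z => LC_sub df dg z _
  have e2 : dy (fun z => f z - g z) = fun z => dy f z - dy g z := funext fun z => LC_sub df dg z _
  unfold lap
  rw [e1, e2]
  have e3 : dx (fun z => dx f z - dx g z) z = dx (dx f) z - dx (dx g) z := LC_sub d1 d3 z _
  have e4 : dy (fun z => dy f z - dy g z) z = dy (dy f) z - dy (dy g) z := LC_sub d2 d4 z _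
  rw [e3, e4]
  ring

theorem LC_lap_add (hf : ContDiff ℝ 2 f) (hg : ContDiff ℝ 2 g) (z : ℝ × ℝ × ℝ) :
    lap (fun z => f z + g z) z = lap f z + lap g z := by
  obtain ⟨-, h1, h2⟩ := NCa_cd 1 f (by exact_mod_cast hf)
  obtain ⟨-, h3, h4⟩ := NCa_cd 1 g (by exact_mod_cast hg)
  have d1 : Differentiable ℝ (dx f) := h1.differentiable (by norm_num)
  have d2 : Differentiable ℝ (dy f) := h2.differentiable (by norm_num)
  have d3 : Differentiable ℝ (dx g) := h3.differentiable (by norm_num)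
  have d4 : Differentiable ℝ (dy g) := h4.differentiable (by norm_num)
  have df : Differentiable ℝ f := hf.differentiable (by norm_num)
  have dg : Differentiable ℝ g := hg.differentiable (by norm_num)
  have e1 : dx (fun z => f z + g z) = fun z => dx f z + dx g z := funext fun z => LC_add df dg z _
  have e2 : dy (fun z => f z + g z) = fun z => dy f z + dy g z := funext fun z => LC_add df dg z _
  unfold lap
  rw [e1, e2]
  have e3 : dx (fun z => dx f z + dx g z) z = dx (dx f) z + dx (dx g) z := LC_add d1 d3 z _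
  have e4 : dy (fun z => dy f z + dy g z) z = dy (dy f) z + dy (dy g) z := LC_add d2 d4 z _
  rw [e3, e4]
  ring

/-- the Laplacian of `y ∂ₓ f - x ∂_y f` -/
theorem LC_lap (hf : ContDiff ℝ 3 f) :
    ContDiff ℝ 2 (fun z : ℝ × ℝ × ℝ => z.2.2 * dx f z - z.2.1 * dy f z) ∧
    Differentiable ℝ (lap f) ∧
    ∀ z, lap (fun z : ℝ × ℝ × ℝ => z.2.2 * dx f z - z.2.1 * dy f z) z
      = z.2.2 * dx (lap f) z - z.2.1 * dy (lap f) z := by
  have f2 : ContDiff ℝ 2 f := hf.of_le (by norm_num)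
  obtain ⟨-, h1, h2⟩ := NCa_cd 2 f (by exact_mod_cast hf)
  have h1' : ContDiff ℝ 2 (dx f) := by exact_mod_cast h1
  have h2' : ContDiff ℝ 2 (dy f) := by exact_mod_cast h2
  obtain ⟨-, h11, h12⟩ := NCa_cd 1 (dx f) (by exact_mod_cast h1')
  obtain ⟨-, h21, h22⟩ := NCa_cd 1 (dy f) (by exact_mod_cast h2')
  have d1 : Differentiable ℝ (dx f) := h1'.differentiable (by norm_num)
  have d2 : Differentiable ℝ (dy f) := h2'.differentiable (by norm_num)
  have d11 : Differentiable ℝ (dx (dx f)) := h11.differentiable (by norm_num)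
  have d12 : Differentiable ℝ (dy (dx f)) := h12.differentiable (by norm_num)
  have d21 : Differentiable ℝ (dx (dy f)) := h21.differentiable (by norm_num)
  have d22 : Differentiable ℝ (dy (dy f)) := h22.differentiable (by norm_num)
  refine ⟨?_, ?_, ?_⟩
  · have c1 : ContDiff ℝ 2 (fun z : ℝ × ℝ × ℝ => z.2.2) := contDiff_snd.comp contDiff_snd
    have c2 : ContDiff ℝ 2 (fun z : ℝ × ℝ × ℝ => z.2.1) := contDiff_fst.comp contDiff_snd
    exact (c1.mul h1').sub (c2.mul h2')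
  · exact d11.add d22
  · intro z
    have e1 : dx (fun z : ℝ × ℝ × ℝ => z.2.2 * dx f z - z.2.1 * dy f z)
        = fun z => (z.2.2 * dx (dx f) z - z.2.1 * dx (dy f) z) - dy f z :=
      funext fun z => (LC_d1 f2 z).1
    have e2 : dy (fun z : ℝ × ℝ × ℝ => z.2.2 * dx f z - z.2.1 * dy f z)
        = fun z => dx f z + (z.2.2 * dy (dx f) z - z.2.1 * dy (dy f) z) :=
      funext fun z => (LC_d1 f2 z).2
    have e3 : lap f = fun z => dx (dx f) z + dy (dy f) z := rfl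
    have hs : dx (dy f) = dy (dx f) := funext fun z => NCa_symm f f2 z
    have hs1 : dx (dy (dx f)) z = dy (dx (dx f)) z := NCa_symm _ h1' z
    have hs2 : dx (dy (dy f)) z = dy (dx (dy f)) z := NCa_symm _ h2' z
    have k1 : dx (fun z : ℝ × ℝ × ℝ => (z.2.2 * dx (dx f) z - z.2.1 * dx (dy f) z) - dy f z) z
        = z.2.2 * dx (dx (dx f)) z - (dx (dy f) z + z.2.1 * dx (dx (dy f)) z) - dx (dy f) z := by
      show fderiv ℝ _ z (0, 1, 0) = _
      rw [LC_sub (LC_ds (LC_dmy d11) (LC_dmx d21)) d2, LC_sub (LC_dmy d11) (LC_dmx d21), LC_my d11,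
        LC_mx d21]
      show 0 * dx (dx f) z + z.2.2 * dx (dx (dx f)) z - (1 * dx (dy f) z + z.2.1 * dx (dx (dy f)) z)
        - dx (dy f) z = _
      ring
    have k2 : dy (fun z : ℝ × ℝ × ℝ => dx f z + (z.2.2 * dy (dx f) z - z.2.1 * dy (dy f) z)) z
        = dy (dx f) z + (dy (dx f) z + z.2.2 * dy (dy (dx f)) z - z.2.1 * dy (dy (dy f)) z) := by
      show fderiv ℝ _ z (0, 0, 1) = _
      rw [LC_add d1 (LC_ds (LC_dmy d12) (LC_dmx d22)), LC_sub (LC_dmy d12) (LC_dmx d22), LC_my d12,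
        LC_mx d22]
      show dy (dx f) z + (1 * dy (dx f) z + z.2.2 * dy (dy (dx f)) z
        - (0 * dy (dy f) z + z.2.1 * dy (dy (dy f)) z)) = _
      ring
    have k3 : dx (lap f) z = dx (dx (dx f)) z + dx (dy (dy f)) z := by
      rw [e3]
      exact LC_add d11 d22 z _
    have k4 : dy (lap f) z = dy (dx (dx f)) z + dy (dy (dy f)) z := by
      rw [e3]
      exact LC_add d11 d22 z _
    unfold lap at k3 k4 ⊢
    rw [e1, e2, k1, k2, k3, k4, hs2, hs, hs1]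
    ring

end calculus

/-- On the arc: the derivatives of a field which vanishes there. -/
theorem LC_all (Ω : Set (ℝ × ℝ)) (ν R δ : ℝ) (a b m n : ℝ × ℝ × ℝ → ℝ) (q1 : ℝ × ℝ)
    (hΩ : IsOpen Ω) (hν : ν ≠ 0) (D : DM Ω ν a b m n) (hR : 0 < R)
    (hin : ∀ p ∈ Dsc q1 δ, (p ∈ Ω ↔ p.1 ^ 2 + p.2 ^ 2 < R ^ 2)) (t : ℝ) :
    ∀ q ∈ Circ R ∩ Dsc q1 δ,
    (LA a b (t, q) = 0 ∧ dx (LA a b) (t, q) = 0 ∧ dy (LA a b) (t, q) = 0 ∧
      lap (LA a b) (t, q) = 0) ∧
    (LB a b (t, q) = 0 ∧ dx (LB a b) (t, q) = 0 ∧ dy (LB a b) (t, q) = 0 ∧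
      lap (LB a b) (t, q) = 0) := by
  have hfr := LC_front hΩ hR hin
  have hNC := fun q hq => NC Ω ν a b m n hΩ hν D t q (hfr q hq)
  have a2 : ContDiff ℝ 2 a := D.ca.of_le (by norm_num)
  have b2 : ContDiff ℝ 2 b := D.cb.of_le (by norm_num)
  have da : Differentiable ℝ a := a2.differentiable (by norm_num)
  have db : Differentiable ℝ b := b2.differentiable (by norm_num)
  obtain ⟨-, ax2, ay2⟩ := NCa_cd 1 a (by exact_mod_cast a2)
  obtain ⟨-, bx2, by2⟩ := NCa_cd 1 b (by exact_mod_cast b2)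
  have dax : Differentiable ℝ (dx a) := ax2.differentiable (by norm_num)
  have day : Differentiable ℝ (dy a) := ay2.differentiable (by norm_num)
  have dbx : Differentiable ℝ (dx b) := bx2.differentiable (by norm_num)
  have dby : Differentiable ℝ (dy b) := by2.differentiable (by norm_num)
  have dV : Differentiable ℝ (vort a b) := dbx.sub day
  obtain ⟨ha2, hla, hlap⟩ := LC_lap D.ca
  obtain ⟨hb2, hlb, hlbp⟩ := LC_lap D.cb
  -- first derivatives
  have T : ∀ f : ℝ × ℝ × ℝ → ℝ, Differentiable ℝ f → (∀ q ∈ Circ R ∩ Dsc q1 δ, f (t, q) = 0) →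
      ∀ q ∈ Circ R ∩ Dsc q1 δ, -q.2 * dx f (t, q) + q.1 * dy f (t, q) = 0 := by
    intro f hf h0 q hq
    have := LC_rot hq (hf _) h0
    rwa [LC_dir] at this
  have za : ∀ q ∈ Circ R ∩ Dsc q1 δ, a (t, q) = 0 := fun q hq => (D.bc t q (hfr q hq)).1
  have zb : ∀ q ∈ Circ R ∩ Dsc q1 δ, b (t, q) = 0 := fun q hq => (D.bc t q (hfr q hq)).2.1
  have Ta := T a da za
  have Tb := T b db zb
  have K : ∀ q ∈ Circ R ∩ Dsc q1 δ,
      R ^ 2 * dx a (t, q) + q.1 * (q.2 * vort a b (t, q)) = 0 ∧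
      R ^ 2 * dy a (t, q) + q.2 * (q.2 * vort a b (t, q)) = 0 ∧
      R ^ 2 * dx b (t, q) - q.1 * (q.1 * vort a b (t, q)) = 0 ∧
      R ^ 2 * dy b (t, q) - q.1 * (q.2 * vort a b (t, q)) = 0 := by
    intro q hq
    have hq' : q.1 ^ 2 + q.2 ^ 2 = R ^ 2 := hq.1
    obtain ⟨-, -, -, -, hd, -⟩ := hNC q hq
    have e1 := Ta q hq
    have e2 := Tb q hq
    rw [← hq']
    unfold vort
    refine ⟨?_, ?_, ?_, ?_⟩
    · linear_combination (-q.1) * e2 + (-q.2) * e1 + (q.1 ^ 2) * hd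
    · linear_combination q.1 * e1 - q.2 * e2 + (q.1 * q.2) * hd
    · linear_combination (-q.2) * e2 + q.1 * e1 + (q.1 * q.2) * hd
    · linear_combination q.1 * e2 + q.2 * e1 + (q.2 ^ 2) * hd
  have TV : ∀ q ∈ Circ R ∩ Dsc q1 δ, fderiv ℝ (vort a b) (t, q) (0, -q.2, q.1) = 0 := by
    intro q hq
    obtain ⟨h1, h2, -⟩ := hNC q hq
    rw [LC_dir, h1, h2]; ring
  intro q hq
  have hq' : q.1 ^ 2 + q.2 ^ 2 = R ^ 2 := hq.1
  have hR2 : R ^ 2 ≠ 0 := by positivity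
  -- tangential derivatives of the gradient
  have s1 : R ^ 2 * (-q.2 * dx (dx a) (t, q) + q.1 * dy (dx a) (t, q))
      + (q.1 ^ 2 - q.2 ^ 2) * vort a b (t, q) = 0 := by
    have h := LC_rot (G := fun z => R ^ 2 * dx a z + z.2.1 * (z.2.2 * vort a b z)) hq
      (((LC_dc dax _).add (LC_dmx (LC_dmy dV))) _) (fun q hq => (K q hq).1)
    rw [LC_add (LC_dc dax _) (LC_dmx (LC_dmy dV)), LC_cm dax, LC_mx (LC_dmy dV), LC_my dV,
      TV q hq, LC_dir] at h
    linear_combination h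
  have s2 : R ^ 2 * (-q.2 * dx (dy a) (t, q) + q.1 * dy (dy a) (t, q))
      + 2 * q.1 * q.2 * vort a b (t, q) = 0 := by
    have h := LC_rot (G := fun z => R ^ 2 * dy a z + z.2.2 * (z.2.2 * vort a b z)) hq
      (((LC_dc day _).add (LC_dmy (LC_dmy dV))) _) (fun q hq => (K q hq).2.1)
    rw [LC_add (LC_dc day _) (LC_dmy (LC_dmy dV)), LC_cm day, LC_my (LC_dmy dV), LC_my dV,
      TV q hq, LC_dir] at h
    linear_combination h
  have s3 : R ^ 2 * (-q.2 * dx (dx b) (t, q) + q.1 * dy (dx b) (t, q))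
      + 2 * q.1 * q.2 * vort a b (t, q) = 0 := by
    have h := LC_rot (G := fun z => R ^ 2 * dx b z - z.2.1 * (z.2.1 * vort a b z)) hq
      (((LC_dc dbx _).sub (LC_dmx (LC_dmx dV))) _) (fun q hq => (K q hq).2.2.1)
    rw [LC_sub (LC_dc dbx _) (LC_dmx (LC_dmx dV)), LC_cm dbx, LC_mx (LC_dmx dV), LC_mx dV,
      TV q hq, LC_dir] at h
    linear_combination h
  have s4 : R ^ 2 * (-q.2 * dx (dy b) (t, q) + q.1 * dy (dy b) (t, q))
      - (q.1 ^ 2 - q.2 ^ 2) * vort a b (t, q) = 0 := by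
    have h := LC_rot (G := fun z => R ^ 2 * dy b z - z.2.1 * (z.2.2 * vort a b z)) hq
      (((LC_dc dby _).sub (LC_dmx (LC_dmy dV))) _) (fun q hq => (K q hq).2.2.2)
    rw [LC_sub (LC_dc dby _) (LC_dmx (LC_dmy dV)), LC_cm dby, LC_mx (LC_dmy dV), LC_my dV,
      TV q hq, LC_dir] at h
    linear_combination h
  obtain ⟨k1, k2, k3, k4⟩ := K q hq
  obtain ⟨-, -, la, lb, hd, -⟩ := hNC q hq
  have sa : dx (dy a) (t, q) = dy (dx a) (t, q) := NCa_symm a a2 _
  have sb : dx (dy b) (t, q) = dy (dx b) (t, q) := NCa_symm b b2 _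
  -- tangential derivatives of the Laplacians
  have Tla := T (lap a) hla (fun q hq => (hNC q hq).2.2.1) q hq
  have Tlb := T (lap b) hlb (fun q hq => (hNC q hq).2.2.2.1) q hq
  have hdiff1 : Differentiable ℝ (fun z : ℝ × ℝ × ℝ => z.2.2 * dx a z - z.2.1 * dy a z) :=
    ha2.differentiable (by norm_num)
  have hdiff2 : Differentiable ℝ (fun z : ℝ × ℝ × ℝ => z.2.2 * dx b z - z.2.1 * dy b z) :=
    hb2.differentiable (by norm_num)
  have zero : ∀ x : ℝ, R ^ 2 * x = 0 → x = 0 := by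
    intro x hx
    rcases mul_eq_zero.1 hx with h | h
    · exact absurd h hR2
    · exact h
  refine ⟨⟨?_, ?_, ?_, ?_⟩, ⟨?_, ?_, ?_, ?_⟩⟩
  · show q.2 * dx a (t, q) - q.1 * dy a (t, q) - b (t, q) = 0
    rw [zb q hq]
    linear_combination -(Ta q hq)
  · have e : dx (LA a b) (t, q) = q.2 * dx (dx a) (t, q) - q.1 * dx (dy a) (t, q) - dy a (t, q)
        - dx b (t, q) := by
      have h1 : dx (LA a b) (t, q) = dx (fun z : ℝ × ℝ × ℝ => z.2.2 * dx a z - z.2.1 * dy a z) (t, q)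
          - dx b (t, q) := LC_sub hdiff1 db _ _
      rw [h1, (LC_d1 a2 _).1]
    rw [e]
    apply zero
    rw [sa]
    linear_combination -s1 - k2 - k3
  · have e : dy (LA a b) (t, q) = dx a (t, q) + (q.2 * dy (dx a) (t, q) - q.1 * dy (dy a) (t, q))
        - dy b (t, q) := by
      have h1 : dy (LA a b) (t, q) = dy (fun z : ℝ × ℝ × ℝ => z.2.2 * dx a z - z.2.1 * dy a z) (t, q)
          - dy b (t, q) := LC_sub hdiff1 db _ _
      rw [h1, (LC_d1 a2 _).2]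
    rw [e]
    apply zero
    rw [sa] at s2
    linear_combination -s2 + k1 - k4
  · have e : lap (LA a b) (t, q) = q.2 * dx (lap a) (t, q) - q.1 * dy (lap a) (t, q)
        - lap b (t, q) := by
      have h1 : lap (LA a b) (t, q) = lap (fun z : ℝ × ℝ × ℝ => z.2.2 * dx a z - z.2.1 * dy a z) (t, q)
          - lap b (t, q) := LC_lap_sub ha2 b2 _
      rw [h1, hlap]
    rw [e]
    have : lap b (t, q) = 0 := lb
    rw [this]
    linear_combination -Tla
  · show q.2 * dx b (t, q) - q.1 * dy b (t, q) + a (t, q) = 0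
    rw [za q hq]
    linear_combination -(Tb q hq)
  · have e : dx (LB a b) (t, q) = q.2 * dx (dx b) (t, q) - q.1 * dx (dy b) (t, q) - dy b (t, q)
        + dx a (t, q) := by
      have h1 : dx (LB a b) (t, q) = dx (fun z : ℝ × ℝ × ℝ => z.2.2 * dx b z - z.2.1 * dy b z) (t, q)
          + dx a (t, q) := LC_add hdiff2 da _ _
      rw [h1, (LC_d1 b2 _).1]
    rw [e]
    apply zero
    rw [sb]
    linear_combination -s3 - k4 + k1
  · have e : dy (LB a b) (t, q) = dx b (t, q) + (q.2 * dy (dx b) (t, q) - q.1 * dy (dy b) (t, q))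
        + dy a (t, q) := by
      have h1 : dy (LB a b) (t, q) = dy (fun z : ℝ × ℝ × ℝ => z.2.2 * dx b z - z.2.1 * dy b z) (t, q)
          + dy a (t, q) := LC_add hdiff2 da _ _
      rw [h1, (LC_d1 b2 _).2]
    rw [e]
    apply zero
    rw [sb] at s4
    linear_combination -s4 + k3 + k2
  · have e : lap (LB a b) (t, q) = q.2 * dx (lap b) (t, q) - q.1 * dy (lap b) (t, q)
        + lap a (t, q) := by
      have h1 : lap (LB a b) (t, q) = lap (fun z : ℝ × ℝ × ℝ => z.2.2 * dx b z - z.2.1 * dy b z) (t, q)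
          + lap a (t, q) := LC_lap_add hb2 a2 _
      rw [h1, hlbp]
    rw [e]
    have : lap a (t, q) = 0 := la
    rw [this]
    linear_combination -Tlb

theorem LC : LC_stmt := by
  intro Ω ν R α β δ a b m n q1 hΩ hν D hR hq1 hδ hin hvort t ht q hq F hF
  have hall := fun t => LC_all Ω ν R δ a b m n q1 hΩ hν D hR hin t
  obtain ⟨ha2, -, -⟩ := LC_lap D.ca
  obtain ⟨hb2, -, -⟩ := LC_lap D.cb
  have a2 : ContDiff ℝ 2 a := D.ca.of_le (by norm_num)
  have b2 : ContDiff ℝ 2 b := D.cb.of_le (by norm_num)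
  rcases hF with rfl | hF
  · exact LC_KT R α β δ q1 (LA a b) hR (ha2.sub b2) (fun t _ q hq => (hall t q hq).1) t ht q hq
  · have hF' : F = LB a b := hF
    rw [hF']
    exact LC_KT R α β δ q1 (LB a b) hR (hb2.add a2) (fun t _ q hq => (hall t q hq).2) t ht q hq

end NS
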