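import Pool.Agent.helper29.NS.SpecE

/-!
# Project ns, module JB: the asymptotics of the bracket
-/

namespace NS

open MeasureTheory Filter Topology Set

theorem JB_px (k : ℕ) (H : ℝ × ℝ → ℝ) (h : ContDiff ℝ (k + 1 : ℕ) H) : ContDiff ℝ k (px H) := by
  have h1 : ContDiff ℝ k (fderiv ℝ H) := h.fderiv_right (by norm_cast)
  exact h1.clm_apply contDiff_const

theorem JB_py (k : ℕ) (H : ℝ × ℝ → ℝ) (h : ContDiff ℝ (k + 1 : ℕ) H) : ContDiff ℝ k (py H) := by
  have h1 : ContDiff ℝ k (fderiv ℝ H) := h.fderiv_right (by norm_cast)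
  exact h1.clm_apply contDiff_const

theorem JB_loc (η : ℝ) (u v : ℝ → ℝ) (h : ∀ s, |s| < η → u s = v s) :
    ∀ s, |s| < η → deriv u s = deriv v s := by
  intro s hs
  have h1 : ∀ᶠ x in 𝓝 s, |x| < η :=
    (continuous_abs.tendsto s).eventually (Iio_mem_nhds hs)
  exact Filter.EventuallyEq.deriv_eq (h1.mono fun x hx => h x hx)

theorem JB_loc0 (η c : ℝ) (u : ℝ → ℝ) (h : ∀ s, |s| < η → u s = c) :
    ∀ s, |s| < η → deriv u s = 0 := by
  intro s hs
  rw [JB_loc η u (fun _ => c) h s hs, deriv_const]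

theorem JB (hA : JA_stmt) (hC : JC_stmt) (hD : JD_stmt) (hN : JN_stmt) (hE : JE_stmt) :
    JB_stmt := by
  intro f P Q W V U ν η w w1 w2 hν hη hw hf hf0 hP hQ hW hV hU hin hbd
  -- regularity
  have cPy : ContDiff ℝ (6 : ℕ) (py P) := JB_py 6 P (by exact_mod_cast hP)
  have cQx : ContDiff ℝ (6 : ℕ) (px Q) :=
    JB_px 6 Q (by exact_mod_cast hQ.of_le (by norm_cast))
  have cP : ContDiff ℝ (7 : ℕ) P := by exact_mod_cast hP
  have cQ : ContDiff ℝ (8 : ℕ) Q := by exact_mod_cast hQ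
  have cQ7 : ContDiff ℝ (7 : ℕ) Q := cQ.of_le (by norm_cast)
  have cW : ContDiff ℝ (7 : ℕ) W := by exact_mod_cast hW
  have cV : ContDiff ℝ (6 : ℕ) V := by exact_mod_cast hV
  have cU : ContDiff ℝ (5 : ℕ) U := by exact_mod_cast hU
  have cf8 : ContDiff ℝ (8 : ℕ) f := by exact_mod_cast hf
  have cf7 : ContDiff ℝ (7 : ℕ) f := cf8.of_le (by norm_cast)
  have cWx : ContDiff ℝ (6 : ℕ) (px W) := JB_px 6 W cW
  have cWy : ContDiff ℝ (6 : ℕ) (py W) := JB_py 6 W cW
  -- `P_{j+1} = Q_j'`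
  have hPQ : ∀ j ≤ 6, ∀ s, |s| < η → hj P (j + 1) s = deriv (hj Q j) s := by
    intro j hj6 s hs
    have h1 := hC 6 η (fun z => py P z - px Q z) (cPy.sub cQx) (fun s r h2 h3 h4 => by
      have := (hin s r h2 h3 h4).1
      show py P (s, r) - px Q (s, r) = 0
      rw [this, sub_self]) j hj6 s hs
    have h2 := (hD 6 (py P) (px Q) cPy cQx).2.2.2.1 j hj6 s
    have h3 := (hD 7 P Q cP cQ7).2.2.1 j (by omega) s
    have h4 := (hD 7 Q P cQ7 cP).2.1 j (by omega) s
    rw [h1, h3, h4] at h2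
    linarith
  -- jets of `W`
  obtain ⟨-, cM, -, hMj⟩ := hN 5 f P Q cf8 cP cQ7
  have hWj : ∀ j ≤ 6, ∀ s, |s| < η → hj W j s = deriv (hj P j) s
      - 2 * deriv f s * hj P (j + 1) s - deriv (deriv f) s * hj Q j s
      + (1 + deriv f s ^ 2) * hj Q (j + 1) s := by
    intro j hj6 s hs
    have h1 := hC 6 η (fun z => Mf f P Q z - W z) (cM.sub (cW.of_le (by norm_cast)))
      (fun s r h2 h3 h4 => by
        have := (hin s r h2 h3 h4).2.1
        show Mf f P Q (s, r) - W (s, r) = 0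
        rw [this, sub_self]) j hj6 s hs
    have h2 := (hD 6 (Mf f P Q) W cM (cW.of_le (by norm_cast))).2.2.2.1 j hj6 s
    have h3 := hMj j hj6 s
    rw [h1, h3] at h2
    linarith
  -- jets of `V`
  obtain ⟨cLW, -, hLWj, -⟩ := hN 5 f W W cf8 cW cW
  have hVj : ∀ j ≤ 5, ∀ s, |s| < η → ν * (deriv (deriv (hj W j)) s
      - 2 * deriv f s * deriv (hj W (j + 1)) s - deriv (deriv f) s * hj W (j + 1) s
      + (1 + deriv f s ^ 2) * hj W (j + 2) s) = hj V j s := by
    intro j hj5 s hs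
    have c1 : ContDiff ℝ (5 : ℕ) (fun z => ν * Lf f W z) := contDiff_const.mul cLW
    have h1 := hC 5 η (fun z => ν * Lf f W z - V z) (c1.sub (cV.of_le (by norm_cast)))
      (fun s r h2 h3 h4 => by
        have := (hin s r h2 h3 h4).2.2.1
        show ν * Lf f W (s, r) - V (s, r) = 0
        rw [this, sub_self]) j hj5 s hs
    have h2 := (hD 5 (fun z => ν * Lf f W z) V c1 (cV.of_le (by norm_cast))).2.2.2.1 j hj5 s
    have h3 := (hD 5 (Lf f W) (Lf f W) cLW cLW).2.2.2.2 ν j hj5 s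
    rw [h1, h3, hLWj j hj5 s] at h2
    linarith
  -- jets of `U`
  obtain ⟨cLV, -, hLVj, -⟩ := hN 4 f V V cf7 cV cV
  have hUj : ∀ j ≤ 4, ∀ s, |s| < η → ν * (deriv (deriv (hj V j)) s
      - 2 * deriv f s * deriv (hj V (j + 1)) s - deriv (deriv f) s * hj V (j + 1) s
      + (1 + deriv f s ^ 2) * hj V (j + 2) s) = hj U j s := by
    intro j hj4 s hs
    have c1 : ContDiff ℝ (4 : ℕ) (fun z => ν * Lf f V z) := contDiff_const.mul cLV
    have h1 := hC 4 η (fun z => ν * Lf f V z - U z) (c1.sub (cU.of_le (by norm_cast)))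
      (fun s r h2 h3 h4 => by
        have := (hin s r h2 h3 h4).2.2.2
        show ν * Lf f V (s, r) - U (s, r) = 0
        rw [this, sub_self]) j hj4 s hs
    have h2 := (hD 4 (fun z => ν * Lf f V z) U c1 (cU.of_le (by norm_cast))).2.2.2.1 j hj4 s
    have h3 := (hD 4 (Lf f V) (Lf f V) cLV cLV).2.2.2.2 ν j hj4 s
    rw [h1, h3, hLVj j hj4 s] at h2
    linarith
  -- boundary values
  have bP0 : ∀ s, |s| < η → hj P 0 s = 0 := fun s hs => (hbd s hs).1
  have bQ0 : ∀ s, |s| < η → hj Q 0 s = 0 := fun s hs => (hbd s hs).2.1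
  have bW0 : ∀ s, |s| < η → hj W 0 s = w := fun s hs => (hbd s hs).2.2.1
  have bW1 : ∀ s, |s| < η → hj W 1 s = 0 := fun s hs => (hbd s hs).2.2.2.1
  have bV0 : ∀ s, |s| < η → hj V 0 s = w1 := fun s hs => (hbd s hs).2.2.2.2.1
  have bV1 : ∀ s, |s| < η → hj V 1 s = 0 := fun s hs => (hbd s hs).2.2.2.2.2.1
  have bU0 : ∀ s, |s| < η → hj U 0 s = w2 := fun s hs => (hbd s hs).2.2.2.2.2.2.1
  have bU1 : ∀ s, |s| < η → hj U 1 s = 0 := fun s hs => (hbd s hs).2.2.2.2.2.2.2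
  have bP1 : ∀ s, |s| < η → hj P 1 s = 0 := by
    intro s hs
    rw [hPQ 0 (by norm_num) s hs]
    exact JB_loc0 η 0 _ bQ0 s hs
  have dP0 := JB_loc0 η 0 _ bP0
  have dP1 := JB_loc0 η 0 _ bP1
  have dP2 := JB_loc η _ _ (fun s hs => hPQ 1 (by norm_num) s hs)
  have dP3 := JB_loc η _ _ (fun s hs => hPQ 2 (by norm_num) s hs)
  have dW0 := JB_loc0 η w _ bW0
  have ddW0 := JB_loc0 η 0 _ dW0
  have dW1 := JB_loc0 η 0 _ bW1
  have ddW1 := JB_loc0 η 0 _ dW1
  have dV0 := JB_loc0 η w1 _ bV0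
  have ddV0 := JB_loc0 η 0 _ dV0
  have dV1 := JB_loc0 η 0 _ bV1
  have ddV1 := JB_loc0 η 0 _ dV1
  -- regularity of jets
  have rQ := (hD 8 Q Q cQ cQ).1
  have rW := (hD 7 W W cW cW).1
  have rV := (hD 6 V V cV cV).1
  have key := hE f (hj Q 1) (hj Q 2) (hj Q 3) (hj Q 4) (hj W 2) (hj W 3) (hj W 4) (hj W 5)
    (hj V 2) (hj V 3) ν η w w1 w2 hν hη hw hf hf0
    ((rQ 1 (by norm_num)).of_le (by norm_cast)) ((rQ 2 (by norm_num)).of_le (by norm_cast))
    ((rQ 3 (by norm_num)).of_le (by norm_cast)) ((rQ 4 (by norm_num)).of_le (by norm_cast))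
    ((rW 2 (by norm_num)).of_le (by norm_cast)) ((rW 3 (by norm_num)).of_le (by norm_cast))
    ((rW 4 (by norm_num)).of_le (by norm_cast)) ((rW 5 (by norm_num)).of_le (by norm_cast))
    ((rV 2 (by norm_num)).of_le (by norm_cast)) ((rV 3 (by norm_num)).of_le (by norm_cast))
    (by
      intro s hs
      refine ⟨?_, ?_, ?_, ?_, ?_, ?_, ?_, ?_, ?_, ?_⟩
      · have := hWj 0 (by norm_num) s hs
        rw [bW0 s hs, dP0 s hs, bP1 s hs, bQ0 s hs] at this
        linarith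
      · have := hWj 1 (by norm_num) s hs
        rw [bW1 s hs, dP1 s hs, hPQ 1 (by norm_num) s hs] at this
        linarith
      · have := hWj 2 (by norm_num) s hs
        rw [dP2 s hs, hPQ 2 (by norm_num) s hs] at this
        linarith
      · have := hWj 3 (by norm_num) s hs
        rw [dP3 s hs, hPQ 3 (by norm_num) s hs] at this
        linarith
      · have := hVj 0 (by norm_num) s hs
        rw [bV0 s hs, ddW0 s hs, dW1 s hs, bW1 s hs] at this
        rw [← this]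
        ring
      · have := hVj 1 (by norm_num) s hs
        rw [bV1 s hs, ddW1 s hs] at this
        have h2 := (mul_eq_zero.1 this).resolve_left hν.ne'
        linarith
      · exact hVj 2 (by norm_num) s hs
      · exact hVj 3 (by norm_num) s hs
      · have := hUj 0 (by norm_num) s hs
        rw [bU0 s hs, ddV0 s hs, dV1 s hs, bV1 s hs] at this
        rw [← this]
        ring
      · have := hUj 1 (by norm_num) s hs
        rw [bU1 s hs, ddV1 s hs] at this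
        have h2 := (mul_eq_zero.1 this).resolve_left hν.ne'
        linarith)
  obtain ⟨k1, k2, k3, k4, k5, k6, k7, k8, k9, k10⟩ := key
  have h0 : |(0 : ℝ)| < η := by rw [abs_zero]; exact hη
  set ρ : ℝ := w1 / (ν * w) with hρ
  set D : ℝ := (w * w2 - w1 ^ 2) / (ν ^ 2 * w) with hDd
  -- limits
  have L1 := hA 3 P (cP.of_le (by norm_cast)) (by
    intro j hj3
    interval_cases j
    · exact bP0 0 h0
    · exact bP1 0 h0
    · rw [hPQ 1 (by norm_num) 0 h0]
      exact k2)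
  rw [hPQ 2 (by norm_num) 0 h0, k3] at L1
  have L3 := hA 1 Q (cQ.of_le (by norm_cast)) (by
    intro j hj1
    interval_cases j
    exact bQ0 0 h0)
  rw [k1] at L3
  have cρQ : ContDiff ℝ (6 : ℕ) (fun z => ρ * Q z) :=
    contDiff_const.mul (cQ.of_le (by norm_cast))
  have cρP : ContDiff ℝ (6 : ℕ) (fun z => ρ * P z) :=
    contDiff_const.mul (cP.of_le (by norm_cast))
  have jA : ∀ j ≤ 5, hj (fun z => py W z - ρ * Q z) j 0 = hj W (j + 1) 0 - ρ * hj Q j 0 := by
    intro j hj5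
    have h2 := (hD 6 (py W) (fun z => ρ * Q z) cWy cρQ).2.2.2.1 j (by omega) 0
    have h3 := (hD 7 W Q cW cQ7).2.2.1 j (by omega) 0
    have h4 := (hD 7 Q Q cQ7 cQ7).2.2.2.2 ρ j (by omega) 0
    rw [h2, h3, h4]
  have jB : ∀ j ≤ 5, hj (fun z => px W z - ρ * P z) j 0 = deriv (hj W j) 0 - ρ * hj P j 0 := by
    intro j hj5
    have h2 := (hD 6 (px W) (fun z => ρ * P z) cWx cρP).2.2.2.1 j (by omega) 0
    have h3 := (hD 7 W Q cW cQ7).2.1 j (by omega) 0
    have h4 := (hD 7 P P cP cP).2.2.2.2 ρ j (by omega) 0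
    rw [h2, h3, h4]
  have L2 := hA 3 (fun z => py W z - ρ * Q z) ((cWy.sub cρQ).of_le (by norm_cast)) (by
    intro j hj3
    rw [jA j (by omega)]
    interval_cases j
    · rw [bW1 0 h0, bQ0 0 h0]
      ring
    · rw [show 1 + 1 = 2 from rfl, k4, sub_self]
    · rw [show 2 + 1 = 3 from rfl, k5, sub_self])
  rw [jA 3 (by norm_num), show 3 + 1 = 4 from rfl, k8] at L2
  have L4 := hA 5 (fun z => px W z - ρ * P z) ((cWx.sub cρP).of_le (by norm_cast)) (by
    intro j hj5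
    rw [jB j (by omega)]
    interval_cases j
    · rw [dW0 0 h0, bP0 0 h0]
      ring
    · rw [dW1 0 h0, bP1 0 h0]
      ring
    · rw [hPQ 1 (by norm_num) 0 h0, k6, sub_self]
    · rw [hPQ 2 (by norm_num) 0 h0, k7, sub_self]
    · rw [hPQ 3 (by norm_num) 0 h0, k9])
  rw [jB 5 (by norm_num), hPQ 4 (by norm_num) 0 h0, k10] at L4
  have L := (L1.mul L2).sub (L3.mul L4)
  have hval : deriv (deriv (deriv f)) 0 * w / ((Nat.factorial 3 : ℕ) : ℝ) *
      (D / ((Nat.factorial 3 : ℕ) : ℝ)) - w / ((Nat.factorial 1 : ℕ) : ℝ) *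
      (2 * deriv (deriv (deriv f)) 0 * D / ((Nat.factorial 5 : ℕ) : ℝ)) =
      deriv (deriv (deriv f)) 0 * (w * w2 - w1 ^ 2) / (90 * ν ^ 2) := by
    have e3 : ((Nat.factorial 3 : ℕ) : ℝ) = 6 := by norm_num [Nat.factorial]
    have e1 : ((Nat.factorial 1 : ℕ) : ℝ) = 1 := by norm_num [Nat.factorial]
    have e5 : ((Nat.factorial 5 : ℕ) : ℝ) = 120 := by norm_num [Nat.factorial]
    rw [e3, e1, e5, hDd]
    field_simp
    ring
  rw [hval] at L
  refine L.congr' ?_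
  filter_upwards [self_mem_nhdsWithin] with r hr
  have hr0 : r ≠ 0 := ne_of_gt hr
  field_simp
  ring

end NS
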