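import Pool.Agent.helper29.NS.SpecE

/-!
# Project ns, module JE: the computation of the jets
-/

namespace NS

open MeasureTheory Filter Topology Set

theorem JE_loc (η : ℝ) (u v : ℝ → ℝ) (h : ∀ s, |s| < η → u s = v s) :
    ∀ s, |s| < η → deriv u s = deriv v s := by
  intro s hs
  have h1 : ∀ᶠ x in 𝓝 s, |x| < η :=
    (continuous_abs.tendsto s).eventually (Iio_mem_nhds hs)
  exact Filter.EventuallyEq.deriv_eq (h1.mono fun x hx => h x hx)

section

variable (a b : ℝ → ℝ)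

/-- derivative of `c / E ^ k`, `E = 1 + a²` -/
theorem JE_inv (c s : ℝ) (k : ℕ) (ha : HasDerivAt a (b s) s) :
    HasDerivAt (fun s => c / (1 + a s ^ 2) ^ k)
      (-(c * (k * (2 * a s * b s))) / (1 + a s ^ 2) ^ (k + 1)) s := by
  have hE : HasDerivAt (fun s => 1 + a s ^ 2) (2 * a s * b s) s := by
    have := (ha.fun_pow 2).const_add 1
    simpa using this
  have hpos : (0 : ℝ) < 1 + a s ^ 2 := by positivity
  have h1 := (hasDerivAt_const s c).fun_div (hE.fun_pow k) (by positivity)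
  refine h1.congr_deriv ?_
  rcases k with _ | k
  · simp
  · rw [Nat.add_sub_cancel]
    field_simp
    ring

/-- value at a zero of `a` of the derivative of `c b / E ^ k` -/
theorem JE_z1 (c s b' : ℝ) (k : ℕ) (ha : HasDerivAt a (b s) s) (hb : HasDerivAt b b' s)
    (h0 : a s = 0) : HasDerivAt (fun s => c * b s / (1 + a s ^ 2) ^ k) (c * b') s := by
  have h1 := hb.fun_mul (JE_inv a b c s k ha)
  rw [h0] at h1
  have h2 : (fun s => b s * (c / (1 + a s ^ 2) ^ k)) = fun s => c * b s / (1 + a s ^ 2) ^ k := by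
    funext s
    ring
  rw [h2] at h1
  refine h1.congr_deriv ?_
  simp
  ring

theorem JE_z2 (c s b' : ℝ) (k : ℕ) (ha : HasDerivAt a (b s) s) (hb : HasDerivAt b b' s)
    (h0 : a s = 0) : HasDerivAt (fun s => c * a s ^ 2 * b s / (1 + a s ^ 2) ^ k) 0 s := by
  have h1 := (ha.fun_pow 2).fun_mul (JE_z1 a b c s b' k ha hb h0)
  have h2 : (fun s => a s ^ 2 * (c * b s / (1 + a s ^ 2) ^ k)) =
      fun s => c * a s ^ 2 * b s / (1 + a s ^ 2) ^ k := by
    funext s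
    ring
  rw [h2] at h1
  refine h1.congr_deriv ?_
  rw [h0]
  simp

end

theorem JE : JE_stmt := by
  intro f Q1 Q2 Q3 Q4 W2 W3 W4 W5 V2 V3 ν η w w1 w2 hν hη hw hf hf0 c1 c2 c3 c4 d2 d3 d4 d5
    e2 e3 H
  set a := deriv f with ha
  set b := deriv a with hb
  have hν0 : ν ≠ 0 := hν.ne'
  have cf8 : ContDiff ℝ (7 + 1) f := by norm_num; exact hf
  have ca : ContDiff ℝ 7 a := (contDiff_succ_iff_deriv.1 cf8).2.2
  have ca' : ContDiff ℝ (6 + 1) a := by norm_num; exact ca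
  have cb : ContDiff ℝ 6 b := (contDiff_succ_iff_deriv.1 ca').2.2
  have hda : ∀ s, HasDerivAt a (b s) s := fun s =>
    ((ca.differentiable (by norm_num)) s).hasDerivAt
  have hdb : ∀ s, HasDerivAt b (deriv b s) s := fun s =>
    ((cb.differentiable (by norm_num)) s).hasDerivAt
  have hE : ∀ s, (0 : ℝ) < 1 + a s ^ 2 := fun s => by positivity
  have hE0 : ∀ s, (1 + a s ^ 2 : ℝ) ≠ 0 := fun s => (hE s).ne'
  set ρ : ℝ := w1 / (ν * w) with hρ
  set D : ℝ := (w * w2 - w1 ^ 2) / (ν ^ 2 * w) with hD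
  -- explicit formulas
  have F1 : ∀ s, |s| < η → Q1 s = w / (1 + a s ^ 2) ^ 1 := by
    intro s hs
    rw [pow_one, eq_div_iff (hE0 s), mul_comm]
    exact (H s hs).1
  have F5 : ∀ s, |s| < η → W2 s = (w1 / ν) / (1 + a s ^ 2) ^ 1 := by
    intro s hs
    rw [pow_one, eq_div_iff (hE0 s), eq_div_iff hν0]
    rw [← (H s hs).2.2.2.2.1]
    ring
  have F9 : ∀ s, |s| < η → V2 s = (w2 / ν) / (1 + a s ^ 2) ^ 1 := by
    intro s hs
    rw [pow_one, eq_div_iff (hE0 s), eq_div_iff hν0]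
    rw [← (H s hs).2.2.2.2.2.2.2.2.1]
    ring
  have G1 : ∀ s, |s| < η → deriv Q1 s = -(w * (1 * (2 * a s * b s))) / (1 + a s ^ 2) ^ 2 := by
    intro s hs
    rw [JE_loc η _ _ F1 s hs, (JE_inv a b w s 1 (hda s)).deriv]
    push_cast
    rfl
  have G5 : ∀ s, |s| < η →
      deriv W2 s = -(w1 / ν * (1 * (2 * a s * b s))) / (1 + a s ^ 2) ^ 2 := by
    intro s hs
    rw [JE_loc η _ _ F5 s hs, (JE_inv a b (w1 / ν) s 1 (hda s)).deriv]
    push_cast
    rfl
  have G9 : ∀ s, |s| < η →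
      deriv V2 s = -(w2 / ν * (1 * (2 * a s * b s))) / (1 + a s ^ 2) ^ 2 := by
    intro s hs
    rw [JE_loc η _ _ F9 s hs, (JE_inv a b (w2 / ν) s 1 (hda s)).deriv]
    push_cast
    rfl
  have F2 : ∀ s, |s| < η → Q2 s = w * b s / (1 + a s ^ 2) ^ 2 -
      4 * w * a s ^ 2 * b s / (1 + a s ^ 2) ^ 3 := by
    intro s hs
    have h1 := (H s hs).2.1
    rw [F1 s hs, G1 s hs] at h1
    have h2 := hE0 s
    have h3 : Q2 s = (2 * a s * (-(w * (1 * (2 * a s * b s))) / (1 + a s ^ 2) ^ 2) +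
        b s * (w / (1 + a s ^ 2) ^ 1)) / (1 + a s ^ 2) := by
      rw [eq_div_iff h2]
      linarith
    rw [h3]
    field_simp
    ring
  have F6 : ∀ s, |s| < η → W3 s = (w1 / ν) * b s / (1 + a s ^ 2) ^ 2 -
      4 * (w1 / ν) * a s ^ 2 * b s / (1 + a s ^ 2) ^ 3 := by
    intro s hs
    have h1 := (H s hs).2.2.2.2.2.1
    rw [F5 s hs, G5 s hs] at h1
    have h2 := hE0 s
    have h3 : W3 s = (2 * a s * (-(w1 / ν * (1 * (2 * a s * b s))) / (1 + a s ^ 2) ^ 2) +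
        b s * ((w1 / ν) / (1 + a s ^ 2) ^ 1)) / (1 + a s ^ 2) := by
      rw [eq_div_iff h2]
      linarith
    rw [h3]
    field_simp
    ring
  have F10 : ∀ s, |s| < η → V3 s = (w2 / ν) * b s / (1 + a s ^ 2) ^ 2 -
      4 * (w2 / ν) * a s ^ 2 * b s / (1 + a s ^ 2) ^ 3 := by
    intro s hs
    have h1 := (H s hs).2.2.2.2.2.2.2.2.2
    rw [F9 s hs, G9 s hs] at h1
    have h2 := hE0 s
    have h3 : V3 s = (2 * a s * (-(w2 / ν * (1 * (2 * a s * b s))) / (1 + a s ^ 2) ^ 2) +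
        b s * ((w2 / ν) / (1 + a s ^ 2) ^ 1)) / (1 + a s ^ 2) := by
      rw [eq_div_iff h2]
      linarith
    rw [h3]
    field_simp
    ring
  have R2 : ∀ s, |s| < η → W2 s = ρ * Q1 s := by
    intro s hs
    rw [F5 s hs, F1 s hs, hρ]
    field_simp
  have R3 : ∀ s, |s| < η → W3 s = ρ * Q2 s := by
    intro s hs
    rw [F6 s hs, F2 s hs, hρ]
    field_simp
  have R2' : ∀ s, |s| < η → deriv W2 s = ρ * deriv Q1 s := by
    intro s hs
    rw [JE_loc η _ _ R2 s hs, deriv_const_mul_field]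
  have R3' : ∀ s, |s| < η → deriv W3 s = ρ * deriv Q2 s := by
    intro s hs
    rw [JE_loc η _ _ R3 s hs, deriv_const_mul_field]
  have R2'' : ∀ s, |s| < η → deriv (deriv W2) s = ρ * deriv (deriv Q1) s := by
    intro s hs
    rw [JE_loc η _ _ R2' s hs, deriv_const_mul_field]
  have R3'' : ∀ s, |s| < η → deriv (deriv W3) s = ρ * deriv (deriv Q2) s := by
    intro s hs
    rw [JE_loc η _ _ R3' s hs, deriv_const_mul_field]
  have F7 : ∀ s, |s| < η → W4 s - ρ * Q3 s = D / (1 + a s ^ 2) ^ 2 := by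
    intro s hs
    have h3 := (H s hs).2.2.1
    have h7 := (H s hs).2.2.2.2.2.2.1
    rw [R2'' s hs, R3' s hs, R3 s hs, F9 s hs] at h7
    rw [F5 s hs] at h3
    have h2 := hE0 s
    have h8 : (1 + a s ^ 2) * (W4 s - ρ * Q3 s) = (w2 / ν) / (1 + a s ^ 2) ^ 1 / ν -
        ρ * ((w1 / ν) / (1 + a s ^ 2) ^ 1) := by
      rw [← h7, ← h3]
      field_simp
      ring
    have h9 : W4 s - ρ * Q3 s = ((w2 / ν) / (1 + a s ^ 2) ^ 1 / ν -
        ρ * ((w1 / ν) / (1 + a s ^ 2) ^ 1)) / (1 + a s ^ 2) := by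
      rw [eq_div_iff h2, ← h8]
      ring
    rw [h9, hρ, hD]
    field_simp
  have G7 : ∀ s, |s| < η → deriv W4 s - ρ * deriv Q3 s =
      -(D * (2 * (2 * a s * b s))) / (1 + a s ^ 2) ^ 3 := by
    intro s hs
    have h1 := JE_loc η _ _ F7 s hs
    have h2 : deriv (fun s => W4 s - ρ * Q3 s) s = deriv W4 s - ρ * deriv Q3 s := by
      have hd4 : DifferentiableAt ℝ W4 s := (d4.differentiable (by norm_num)) s
      have hc3 : DifferentiableAt ℝ Q3 s := (c3.differentiable (by norm_num)) s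
      rw [deriv_fun_sub hd4 (hc3.const_mul ρ), deriv_const_mul_field]
    rw [h2, (JE_inv a b D s 2 (hda s)).deriv] at h1
    rw [h1]
    push_cast
    rfl
  have F8 : ∀ s, |s| < η → W5 s - ρ * Q4 s = 2 * D * b s / (1 + a s ^ 2) ^ 3 -
      12 * D * a s ^ 2 * b s / (1 + a s ^ 2) ^ 4 := by
    intro s hs
    have h4 := (H s hs).2.2.2.1
    have h8 := (H s hs).2.2.2.2.2.2.2.1
    have g7 := G7 s hs
    have f7 := F7 s hs
    rw [R3'' s hs] at h8
    have h2 := hE0 s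
    have h9 : (1 + a s ^ 2) * (W5 s - ρ * Q4 s) = V3 s / ν - ρ * W3 s +
        2 * a s * (deriv W4 s - ρ * deriv Q3 s) + b s * (W4 s - ρ * Q3 s) := by
      rw [← h8, ← h4]
      field_simp
      ring
    have h10 : W5 s - ρ * Q4 s = (V3 s / ν - ρ * W3 s +
        2 * a s * (deriv W4 s - ρ * deriv Q3 s) + b s * (W4 s - ρ * Q3 s)) / (1 + a s ^ 2) := by
      rw [eq_div_iff h2, ← h9]
      ring
    rw [h10, g7, f7, F10 s hs, F6 s hs, hρ, hD]
    field_simp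
    ring
  -- values at 0
  have h0 : |(0 : ℝ)| < η := by rw [abs_zero]; exact hη
  have dQ2 : deriv Q2 0 = deriv b 0 * w := by
    rw [JE_loc η _ _ F2 0 h0]
    have h1 := (JE_z1 a b w 0 (deriv b 0) 2 (hda 0) (hdb 0) hf0).fun_sub
      (JE_z2 a b (4 * w) 0 (deriv b 0) 3 (hda 0) (hdb 0) hf0)
    rw [h1.deriv]
    ring
  refine ⟨?_, ?_, dQ2, R2 0 h0, R3 0 h0, R2' 0 h0, R3' 0 h0, ?_, ?_, ?_⟩
  · rw [F1 0 h0, hf0]
    simp
  · rw [G1 0 h0, hf0]
    simp
  · rw [F7 0 h0, hf0]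
    simp
  · rw [G7 0 h0, hf0]
    simp
  · have hd5 : DifferentiableAt ℝ W5 0 := (d5.differentiable (by norm_num)) 0
    have hc4 : DifferentiableAt ℝ Q4 0 := (c4.differentiable (by norm_num)) 0
    have h2 : deriv (fun s => W5 s - ρ * Q4 s) 0 = deriv W5 0 - ρ * deriv Q4 0 := by
      rw [deriv_fun_sub hd5 (hc4.const_mul ρ), deriv_const_mul_field]
    rw [← h2, JE_loc η _ _ F8 0 h0]
    have h1 := (JE_z1 a b (2 * D) 0 (deriv b 0) 3 (hda 0) (hdb 0) hf0).fun_sub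
      (JE_z2 a b (12 * D) 0 (deriv b 0) 4 (hda 0) (hdb 0) hf0)
    rw [h1.deriv]
    ring

end NS
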